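import Pool.Agent.Helper14.W3.StB

set_option autoImplicit false

namespace Pool.Agent.Helper22.W3

open Pool.Agent.Helper14.CV Pool.Agent.Helper14.W3

private theorem iter_comm {n : ℕ} {a b c d : ℤ} (T : (ℤ → ℤ → ℂ) → (ℤ → ℤ → ℂ))
    (hT : ∀ (G H : ℤ → ℤ → ℂ), EqC G H → ∀ i : ℕ, EqC (T^[i] G) (T^[i] H))
    (hS : ∀ G : ℤ → ℤ → ℂ, Sym3 0 n G → Sym3 0 n (T G))
    (hC : ∀ G : ℤ → ℤ → ℂ, Sym3 0 n G → EqC (T (act a b c d G)) (act a b c d (T G)))
    (i : ℕ) : ∀ G : ℤ → ℤ → ℂ, Sym3 0 n G →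
      EqC (T^[i] (act a b c d G)) (act a b c d (T^[i] G)) ∧ Sym3 0 n (T^[i] G) := by
  induction i with
  | zero => intro G hG; exact ⟨EqC.refl _, hG⟩
  | succ i ih =>
    intro G hG
    rw [Function.iterate_succ_apply, Function.iterate_succ_apply]
    have h1 := ih (T G) (hS G hG)
    exact ⟨(hT _ _ (hC G hG) i).trans h1.1, h1.2⟩

private theorem key {n : ℕ} {a b c d : ℤ} (hHkS : S3HkS)
    (hC : ∀ G : ℤ → ℤ → ℂ, Sym3 0 n G →
      EqC (Tl 2 1 (act a b c d G)) (act a b c d (Tl 2 1 G)))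
    (hB : ∀ G : ℤ → ℤ → ℂ, Sym3 0 n G → EqC (Bo 1 (act a b c d G)) (act a b c d (Bo 1 G)))
    (G : ℤ → ℤ → ℂ) (hG : Sym3 0 n G) (i j : ℕ) :
    ∃ H : ℤ → ℤ → ℂ, Sym3 0 n H ∧ H = (Bo 1)^[j] ((Tl 2 1)^[i] G) ∧
      EqC ((Bo 1)^[j] ((Tl 2 1)^[i] (act a b c d G))) (act a b c d H) := by
  have h2 := iter_comm (Tl 2 1) (fun _ _ h i => h.Tl_iter (l := 2) (by norm_num) 1 i)
    (fun G hG => (hHkS ℂ inferInstance n G hG).1 2 (by norm_num) (by norm_num)) hC i G hG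
  have hBo := iter_comm (Bo 1) (fun _ _ h i => h.Bo_iter 1 i)
    (fun G hG => (hHkS ℂ inferInstance n G hG).2) hB j _ h2.2
  exact ⟨_, hBo.2, rfl, (h2.1.Bo_iter 1 j).trans hBo.1⟩

private theorem hom_neg {n : ℕ} {H : ℤ → ℤ → ℂ} (hH : Sym3 0 n H) : H (-1) 0 = H 1 0 := by
  have := hH.1 (-1) 1 0 (by norm_num) (Or.inl one_ne_zero)
  simpa using this

theorem hEv (hHkS : S3HkS) (hHkW : S3HkW) (hHkT : S3HkT) (_hNrm : S3Nrm) : S3Ev := by
  intro n G _ hG i j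
  constructor
  · obtain ⟨H, hH, hHe, hE⟩ := key hHkS
      (fun G hG => (hHkW ℂ inferInstance n G hG).1 2 (by norm_num) (by norm_num))
      (fun G hG => (hHkW ℂ inferInstance n G hG).2) G hG i j
    have h1 := hE.diff (p := 1) (q := 0) (p' := 0) (q' := 1) (Or.inl one_ne_zero)
      (Or.inr one_ne_zero)
    have h2 : H 0 (3 ^ n) = H 0 1 := by
      have := hH.1 (3 ^ n) 0 1 (by positivity) (Or.inr one_ne_zero)
      simpa using this
    unfold ev3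
    rw [h1, ← hHe]
    simp only [act, mul_zero, mul_one, zero_add, add_zero]
    rw [h2, hom_neg hH]
    ring
  · obtain ⟨H, hH, hHe, hE⟩ := key hHkS
      (fun G hG => (hHkT ℂ inferInstance n G hG).1 2 (by norm_num) (by norm_num))
      (fun G hG => (hHkT ℂ inferInstance n G hG).2) G hG i j
    have h1 := hE.diff (p := 1) (q := 0) (p' := 0) (q' := 1) (Or.inl one_ne_zero)
      (Or.inr one_ne_zero)
    unfold ev3
    rw [h1, ← hHe]
    simp only [act, mul_zero, mul_one, zero_add, add_zero]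
    rw [hom_neg hH]

end Pool.Agent.Helper22.W3
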